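import Pool.Agent.NBT.StmtsA

/-!
# NBT squad (MP_e54c4c_gt), row CHE (chain exclusion)

From the rows ZLX, ZPR, ZMA and CHT of `Pool/Agent/NBT/StmtsA.lean`.
-/

set_option autoImplicit false

open Matrix Filter Topology

namespace Pool.Agent.NBT.H45

open Pool.Agent.PFS Pool.Agent.PFJ

/-- **CHE**: zoom so that only the three indices `k, m, j` stay, and apply CHT. -/
theorem che (hZLX : ZlxStmt) (hZPR : ZprStmt) (hZMA : ZmaStmt) (hCHT : ChtStmt) : CheStmt := by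
  intro n C Γ Γ₀ K T c hTB w hw k m j x y hkm hmj hkj hc hMx hMy hSm hSj
  obtain ⟨φ, g, s, W, P, Q, hφ, hg, hs, hZ⟩ :=
    hZLX n C Γ Γ₀ K T c hTB w hw (({k, m, j} : Finset (Fin K))ᶜ) (fun a => (a : ℝ))
      tendsto_natCast_atTop_atTop
  have hθ : Tendsto (fun a => ((φ a : ℕ) : ℝ)) atTop atTop :=
    tendsto_natCast_atTop_atTop.comp hφ.tendsto_atTop
  have hk : k ∉ (({k, m, j} : Finset (Fin K))ᶜ) := by simp
  have hm : m ∉ (({k, m, j} : Finset (Fin K))ᶜ) := by simp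
  have hj : j ∉ (({k, m, j} : Finset (Fin K))ᶜ) := by simp
  obtain ⟨hMv1, -⟩ := hZMA n C Γ Γ₀ K T c hTB w hw _ _ g s W P Q hθ hg hs hZ k x hMx hk
    ⟨m, hm, hSm⟩
  obtain ⟨hMv2, hSx2⟩ := hZMA n C Γ Γ₀ K T c hTB w hw _ _ g s W P Q hθ hg hs hZ m y hMy hm
    ⟨j, hj, hSj⟩
  obtain ⟨-, -, hB, -, -⟩ := hZPR n C Γ Γ₀ K T c hTB w hw _ _ g s W P Q hθ hg hs hZ
  rw [compl_compl] at hB
  exact hCHT n C Γ Γ₀ K T c hTB W hZ.tw k m j (P x) (P y) hkm hmj hkj hc hMv1 hMv2 (hB x) (hB y)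
    ((hSx2 j).2 ⟨hSj, hj⟩)

end Pool.Agent.NBT.H45
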